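import Pool.Agent.U722.FF.Stm4

/-! Project LB, package LOCZ: vanishing of homology over the localisation. -/

set_option autoImplicit false

namespace Pool.Agent.U815.LBP

open CategoryTheory Pool.Agent.Helper655.VN Pool.Agent.RK

open scoped TensorProduct

attribute [local instance] V7N.bcF_additive VN831.bcFunctor_additive

section algebra

variable {G R : Type} [Group G] [Ring R] (c : G →* R)

theorem evM_single (g : G) (n : ℤ) :
    V7N.evM c (MonoidAlgebra.single g n) = n • c g := by
  unfold V7N.evM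
  exact MonoidAlgebra.lift_single _ _ _

/-- the scalar multiplication on the classes `1 ⊗ q` -/
theorem evM_smul {P : Type} [AddCommGroup P] [Module (MonoidAlgebra ℤ G) P]
    (a : MonoidAlgebra ℤ G) (q : P) :
    (V7N.evM c a • (Submodule.Quotient.mk ((1 : R) ⊗ₜ[ℤ] q) : V7N.BCG c P)) =
      Submodule.Quotient.mk ((1 : R) ⊗ₜ[ℤ] (a • q)) := by
  induction a using MonoidAlgebra.induction_linear with
  | zero => simp
  | add a b ha hb => rw [map_add, add_smul, add_smul, ha, hb, TensorProduct.tmul_add]; rfl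
  | single g n =>
    rw [evM_single]
    have h1 : (MonoidAlgebra.single g n : MonoidAlgebra ℤ G) • q =
        n • ((MonoidAlgebra.single g (1 : ℤ)) • q) := by
      rw [← smul_assoc]
      congr 1
      rw [MonoidAlgebra.smul_single, smul_eq_mul, mul_one]
    rw [h1, TensorProduct.tmul_smul, smul_assoc, Submodule.Quotient.mk_smul]
    congr 1
    rw [← Submodule.Quotient.mk_smul, TensorProduct.smul_tmul', smul_eq_mul, mul_one]
    rw [← sub_eq_zero, ← Submodule.Quotient.mk_sub, Submodule.Quotient.mk_eq_zero]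
    refine Submodule.subset_span ⟨1, g, q, ?_⟩
    rw [one_mul]

/-- coordinates in a free module -/
noncomputable def co (I : Type) : (I →₀ MonoidAlgebra ℤ G) →ₗ[ℤ] (I →₀ R) :=
  (Finsupp.mapRange.addMonoidHom (V7N.evM c).toAddMonoidHom).toIntLinearMap

theorem co_apply (I : Type) (p : I →₀ MonoidAlgebra ℤ G) (i : I) : co c I p i = V7N.evM c (p i) :=
  rfl

/-- `R ⊗ F → R^(I)` -/
noncomputable def phi (I : Type) : V7N.BCG c (I →₀ MonoidAlgebra ℤ G) →ₗ[R] (I →₀ R) :=
  Submodule.liftQ (V7N.bcR c (I →₀ MonoidAlgebra ℤ G))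
    (TensorProduct.AlgebraTensorModule.lift
      (LinearMap.toSpanSingleton R ((I →₀ MonoidAlgebra ℤ G) →ₗ[ℤ] (I →₀ R)) (co c I)))
    (by
      rw [V7N.bcR, Submodule.span_le]
      rintro z ⟨x, g, p, rfl⟩
      show _ = _
      rw [map_sub, sub_eq_zero]
      show (x * c g) • co c I p = x • co c I (MonoidAlgebra.single g (1 : ℤ) • p)
      ext i
      show (x * c g) * V7N.evM c (p i) = x * V7N.evM c (MonoidAlgebra.single g (1 : ℤ) * p i)
      rw [map_mul, evM_single, one_smul, mul_assoc])

theorem phi_mk (I : Type) (x : R) (p : I →₀ MonoidAlgebra ℤ G) :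
    phi c I (Submodule.Quotient.mk (x ⊗ₜ[ℤ] p)) = x • co c I p := rfl

/-- `R^(I) → R ⊗ F` -/
noncomputable def psi (I : Type) : (I →₀ R) →ₗ[R] V7N.BCG c (I →₀ MonoidAlgebra ℤ G) :=
  Finsupp.linearCombination R
    (fun i => Submodule.Quotient.mk ((1 : R) ⊗ₜ[ℤ] (Finsupp.single i (1 : MonoidAlgebra ℤ G))))

theorem psi_co (I : Type) (p : I →₀ MonoidAlgebra ℤ G) :
    psi c I (co c I p) = Submodule.Quotient.mk ((1 : R) ⊗ₜ[ℤ] p) := by
  induction p using Finsupp.induction_linear with
  | zero => simp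
  | add p q hp hq => rw [map_add, map_add, hp, hq, TensorProduct.tmul_add]; rfl
  | single i a =>
    have h1 : co c I (Finsupp.single i a) = Finsupp.single i (V7N.evM c a) :=
      Finsupp.mapRange_single (hf := map_zero _)
    rw [h1, psi, Finsupp.linearCombination_single, evM_smul, Finsupp.smul_single, smul_eq_mul,
      mul_one]

theorem phi_inj (I : Type) : Function.Injective (phi c I) := by
  have h : (psi c I).comp (phi c I) = LinearMap.id := by
    apply V7N.bc_ind
    intro p
    show psi c I (phi c I _) = _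
    rw [phi_mk, one_smul, psi_co]
    rfl
  intro x y hxy
  have h1 := congrArg (psi c I) hxy
  have h2 := LinearMap.congr_fun h x
  have h3 := LinearMap.congr_fun h y
  simp only [LinearMap.comp_apply, LinearMap.id_apply] at h2 h3
  rw [← h2, ← h3, h1]

end algebra

section change

variable {G R U : Type} [Group G] [Ring R] [Ring U] (c : G →* R) (ι : R →+* U)

theorem tmap_smul (P : Type) [AddCommGroup P] (r : R) (x : R ⊗[ℤ] P) :
    (TensorProduct.map (ι.toAddMonoidHom.toIntLinearMap) (LinearMap.id : P →ₗ[ℤ] P)) (r • x) =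
      ι r • (TensorProduct.map (ι.toAddMonoidHom.toIntLinearMap)
        (LinearMap.id : P →ₗ[ℤ] P)) x := by
  induction x using TensorProduct.induction_on with
  | zero => simp
  | tmul a b => simp [TensorProduct.smul_tmul']
  | add a b ha hb => rw [smul_add, map_add, map_add, smul_add, ha, hb]

/-- the map `R ⊗ P → U ⊗ P` -/
noncomputable def jj (P : Type) [AddCommGroup P] [Module (MonoidAlgebra ℤ G) P] :
    V7N.BCG c P →+ V7N.BCG ((ι : R →* U).comp c) P :=
  QuotientAddGroup.map (V7N.bcR c P).toAddSubgroup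
    (V7N.bcR ((ι : R →* U).comp c) P).toAddSubgroup
    ((TensorProduct.map (ι.toAddMonoidHom.toIntLinearMap) (LinearMap.id : P →ₗ[ℤ] P)).toAddMonoidHom)
    (by
      intro z hz
      have hz' : z ∈ V7N.bcR c P := hz
      show (TensorProduct.map (ι.toAddMonoidHom.toIntLinearMap) (LinearMap.id : P →ₗ[ℤ] P)) z ∈
        V7N.bcR ((ι : R →* U).comp c) P
      rw [V7N.bcR] at hz'
      clear hz
      induction hz' using Submodule.span_induction with
      | mem z h =>
        obtain ⟨x, g, p, rfl⟩ := h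
        rw [map_sub, TensorProduct.map_tmul, TensorProduct.map_tmul]
        refine Submodule.subset_span ⟨ι x, g, p, ?_⟩
        simp
      | zero => rw [map_zero]; exact Submodule.zero_mem _
      | add x y _ _ hx hy => rw [map_add]; exact Submodule.add_mem _ hx hy
      | smul r x _ hx =>
        rw [tmap_smul]
        exact Submodule.smul_mem _ _ hx)

theorem jj_mk {P : Type} [AddCommGroup P] [Module (MonoidAlgebra ℤ G) P] (x : R) (p : P) :
    jj c ι P (Submodule.Quotient.mk (x ⊗ₜ[ℤ] p)) = Submodule.Quotient.mk (ι x ⊗ₜ[ℤ] p) := rfl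

/-- induction principle for additive maps out of `R ⊗ P` -/
theorem add_ind {P : Type} [AddCommGroup P] [Module (MonoidAlgebra ℤ G) P]
    (m : V7N.BCG c P → Prop) (h : ∀ (x : R) (p : P), m (Submodule.Quotient.mk (x ⊗ₜ[ℤ] p)))
    (h0 : m 0) (hadd : ∀ a b, m a → m b → m (a + b)) : ∀ z, m z := by
  intro z
  obtain ⟨z, rfl⟩ := Submodule.Quotient.mk_surjective _ z
  induction z using TensorProduct.induction_on with
  | zero => exact h0
  | tmul x p => exact h x p
  | add x y hx hy => rw [Submodule.Quotient.mk_add]; exact hadd _ _ hx hy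

theorem jj_smul {P : Type} [AddCommGroup P] [Module (MonoidAlgebra ℤ G) P] (r : R)
    (z : V7N.BCG c P) : jj c ι P (r • z) = ι r • jj c ι P z := by
  refine add_ind c (fun z => jj c ι P (r • z) = ι r • jj c ι P z) ?_ ?_ ?_ z
  · intro x p
    rw [← Submodule.Quotient.mk_smul, TensorProduct.smul_tmul', jj_mk, jj_mk,
      ← Submodule.Quotient.mk_smul, TensorProduct.smul_tmul', smul_eq_mul, smul_eq_mul, map_mul]
  · simp
  · intro a b ha hb
    rw [smul_add, map_add, map_add, smul_add, ha, hb]

theorem jj_nat {P Q : Type} [AddCommGroup P] [Module (MonoidAlgebra ℤ G) P] [AddCommGroup Q]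
    [Module (MonoidAlgebra ℤ G) Q] (f : P →ₗ[MonoidAlgebra ℤ G] Q) (z : V7N.BCG c P) :
    jj c ι Q (V7N.bcM c f z) = V7N.bcM ((ι : R →* U).comp c) f (jj c ι P z) := by
  refine add_ind c (fun z => jj c ι Q (V7N.bcM c f z) =
    V7N.bcM ((ι : R →* U).comp c) f (jj c ι P z)) ?_ ?_ ?_ z
  · intro x p
    rw [V7N.bcM_mk, jj_mk, jj_mk, V7N.bcM_mk]
  · simp
  · intro a b ha hb
    rw [map_add, map_add, map_add, map_add, ha, hb]

theorem phi_jj (I : Type) (z : V7N.BCG c (I →₀ MonoidAlgebra ℤ G)) (i : I) :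
    phi ((ι : R →* U).comp c) I (jj c ι _ z) i = ι (phi c I z i) := by
  refine add_ind c (fun z => phi ((ι : R →* U).comp c) I (jj c ι _ z) i = ι (phi c I z i))
    ?_ ?_ ?_ z
  · intro x p
    rw [jj_mk, phi_mk, phi_mk]
    show ι x * V7N.evM ((ι : R →* U).comp c) (p i) = ι (x * V7N.evM c (p i))
    rw [map_mul]
    congr 1
    generalize p i = a
    induction a using MonoidAlgebra.induction_linear with
    | zero => simp
    | add a b ha hb => rw [map_add, map_add, map_add, ha, hb]
    | single g n => rw [evM_single, evM_single, map_zsmul]; rfl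
  · simp
  · intro a b ha hb
    rw [map_add, map_add, map_add, Finsupp.add_apply, Finsupp.add_apply, map_add, ha, hb]

theorem jj_inj_free (hι : Function.Injective ι) (I : Type) :
    Function.Injective (jj c ι (I →₀ MonoidAlgebra ℤ G)) := by
  intro x y h
  apply phi_inj c I
  ext i
  apply hι
  rw [← phi_jj, ← phi_jj, h]

theorem jj_inj (hι : Function.Injective ι) (P : Type) [AddCommGroup P]
    [Module (MonoidAlgebra ℤ G) P] (hP : Module.Projective (MonoidAlgebra ℤ G) P) :
    Function.Injective (jj c ι P) := by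
  obtain ⟨s, hs⟩ := (Module.projective_def).1 hP
  let r : (P →₀ MonoidAlgebra ℤ G) →ₗ[MonoidAlgebra ℤ G] P :=
    Finsupp.linearCombination (MonoidAlgebra ℤ G) id
  have hrs : ∀ z : V7N.BCG c P, V7N.bcM c r (V7N.bcM c s z) = z := by
    intro z
    have h : (V7N.bcM c r).comp (V7N.bcM c s) = LinearMap.id := by
      apply V7N.bc_ind
      intro p
      rw [LinearMap.comp_apply, V7N.bcM_mk, V7N.bcM_mk]
      have h1 : r (s p) = p := hs p
      rw [h1]
      rfl
    exact LinearMap.congr_fun h z
  intro x y h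
  have h1 : V7N.bcM c s x = V7N.bcM c s y := by
    apply jj_inj_free c ι hι P
    rw [jj_nat, jj_nat, h]
  rw [← hrs x, ← hrs y, h1]

/-- every element of `U ⊗ P` has a denominator -/
theorem denom (hL : Loc ι) {P : Type} [AddCommGroup P] [Module (MonoidAlgebra ℤ G) P]
    (y : V7N.BCG ((ι : R →* U).comp c) P) :
    ∃ (s : R) (y' : V7N.BCG c P), Nz s ∧ ι s • y = jj c ι P y' := by
  refine add_ind ((ι : R →* U).comp c) (fun y => ∃ (s : R) (y' : V7N.BCG c P), Nz s ∧
    ι s • y = jj c ι P y') ?_ ?_ ?_ y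
  · intro u p
    obtain ⟨s, x, hs, h⟩ := hL.left u
    refine ⟨s, Submodule.Quotient.mk (x ⊗ₜ[ℤ] p), hs, ?_⟩
    rw [jj_mk, ← Submodule.Quotient.mk_smul, TensorProduct.smul_tmul', smul_eq_mul, h]
  · exact ⟨1, 0, fun x hx => by rwa [mul_one] at hx, by simp⟩
  · rintro a b ⟨s, a', hs, ha⟩ ⟨t, b', ht, hb⟩
    -- common denominator: `ι t * (ι s)⁻¹ = (ι q)⁻¹ * ι x`
    obtain ⟨w, hw⟩ := hL.unit s hs
    obtain ⟨q, x, hq, h⟩ := hL.left (ι t * (↑w⁻¹ : U))
    have h1 : ι q * ι t = ι x * ι s := by
      rw [← h, mul_assoc, mul_assoc, ← hw, Units.inv_mul, mul_one]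
    have hqt : Nz (q * t) := by
      intro z hz
      rw [← mul_assoc] at hz
      exact hq _ (ht _ hz)
    refine ⟨q * t, x • a' + q • b', hqt, ?_⟩
    rw [map_add, jj_smul, jj_smul, smul_add, map_mul]
    congr 1
    · rw [h1, mul_smul, ha]
    · rw [mul_smul, hb]

end change

section dim

/-- idempotents acting in a torsion module -/
theorem idem_zero {R U M : Type} [Ring R] [Ring U] (ι : R →+* U) (hL : Loc ι) [AddCommGroup M]
    [Module R M] (h : ∀ x : M, ∃ s : R, Nz s ∧ s • x = 0) {k : ℕ} (e : Matrix (Fin k) (Fin k) R)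
    (he : e * e = e) (f : VN831.rowMod e →ₗ[R] M) (hf : Function.Injective f) :
    ∀ i j, e i j = 0 := by
  intro i j
  have hi : e i ∈ VN831.rowMod e := by
    show Matrix.vecMul (e i) e = e i
    funext l
    have := congrFun (congrFun he i) l
    exact this
  obtain ⟨s, hs, h1⟩ := h (f ⟨e i, hi⟩)
  rw [← map_smul] at h1
  have h2 : s • (⟨e i, hi⟩ : VN831.rowMod e) = 0 := hf (by rw [h1, map_zero])
  have h3 : s * e i j = 0 := congrFun (congrArg Subtype.val h2) j
  have h4 : ι s * ι (e i j) = 0 := by rw [← map_mul, h3, map_zero]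
  have h5 : ι (e i j) = 0 := by
    obtain ⟨w, hw⟩ := hL.unit s hs
    rw [← hw] at h4
    have := congrArg (fun z => (↑w⁻¹ : U) * z) h4
    simpa using this
  exact hL.inj (by rw [h5, map_zero])

variable {G U : Type} [Group G] [Ring U] (ι : NG G →+* U)

/-- torsion modules have dimension zero -/
theorem luck_zero (hL : Loc ι) (M : Type) [AddCommGroup M] [Module (NG G) M]
    (h : ∀ x : M, ∃ s : NG G, Nz s ∧ s • x = 0) : VN831.luckDim G M = 0 := by
  unfold VN831.luckDim
  simp only [ENNReal.iSup_eq_zero]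
  intro k e he hf
  obtain ⟨f, hf⟩ := hf
  have h0 := idem_zero ι hL h e he f hf
  have h1 : ∀ i, (tr (e i i)).re = 0 := by
    intro i
    rw [h0 i i, map_zero]
    rfl
  rw [Finset.sum_congr rfl fun i _ => h1 i]
  simp

end dim

/-- torsion of the homology of a complex of modules -/
theorem homology_torsion {R : Type} [Ring R] (K : ChainComplex (ModuleCat.{0} R) ℕ) (n : ℕ)
    (p : R → Prop)
    (h : ∀ v : K.X n, (K.d n ((ComplexShape.down ℕ).next n)).hom v = 0 →
      ∃ s : R, p s ∧ ∃ y : K.X ((ComplexShape.down ℕ).prev n),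
        (K.d ((ComplexShape.down ℕ).prev n) n).hom y = s • v) :
    ∀ x : K.homology n, ∃ s : R, p s ∧ s • x = 0 := by
  intro x
  obtain ⟨z, rfl⟩ := (ModuleCat.epi_iff_surjective (K.homologyπ n)).1 inferInstance x
  have h1 : (K.d n ((ComplexShape.down ℕ).next n)).hom ((K.iCycles n).hom z) = 0 := by
    have := congrArg (fun f => f.hom z) (K.iCycles_d n ((ComplexShape.down ℕ).next n))
    exact this
  obtain ⟨s, hs, y, hy⟩ := h _ h1
  refine ⟨s, hs, ?_⟩
  have h2 : s • z = (K.toCycles ((ComplexShape.down ℕ).prev n) n).hom y := by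
    apply (ModuleCat.mono_iff_injective (K.iCycles n)).1 inferInstance
    have h3 := congrArg (fun f => f.hom y) (K.toCycles_i ((ComplexShape.down ℕ).prev n) n)
    have h4 : (K.iCycles n).hom ((K.toCycles ((ComplexShape.down ℕ).prev n) n).hom y) =
      (K.d ((ComplexShape.down ℕ).prev n) n).hom y := h3
    show (K.iCycles n).hom (s • z) = (K.iCycles n).hom _
    rw [h4, hy, map_smul]
  have h5 := congrArg (fun f => f.hom y)
    (K.toCycles_comp_homologyπ ((ComplexShape.down ℕ).prev n) n)
  have h6 : (K.homologyπ n).hom ((K.toCycles ((ComplexShape.down ℕ).prev n) n).hom y) = 0 := h5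
  show s • (K.homologyπ n).hom z = 0
  rw [← map_smul, h2, h6]

/-- torsion, by comparison with an exact complex over the localisation -/
theorem torsion_of_exact {R U : Type} [Ring R] [Ring U] (ι : R →+* U)
    (K : ChainComplex (ModuleCat.{0} R) ℕ) (K' : ChainComplex (ModuleCat.{0} U) ℕ)
    (j : ∀ i, K.X i →+ K'.X i) (hsmul : ∀ i (r : R) (z : K.X i), j i (r • z) = ι r • j i z)
    (hnat : ∀ i k (z : K.X i), j k ((K.d i k).hom z) = (K'.d i k).hom (j i z))
    (hinj : ∀ i, Function.Injective (j i))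
    (hden : ∀ i (y : K'.X i), ∃ (s : R) (y' : K.X i), Nz s ∧ ι s • y = j i y') (n : ℕ)
    (hz : Limits.IsZero (K'.homology n)) : ∀ x : K.homology n, ∃ s : R, Nz s ∧ s • x = 0 := by
  have hex : K'.ExactAt n := (K'.exactAt_iff_isZero_homology n).2 hz
  have hex' : ∀ y : K'.X n, (K'.d n ((ComplexShape.down ℕ).next n)).hom y = 0 →
      ∃ w : K'.X ((ComplexShape.down ℕ).prev n),
        (K'.d ((ComplexShape.down ℕ).prev n) n).hom w = y := by
    intro y hy
    exact (ShortComplex.moduleCat_exact_iff _).1 hex y hy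
  refine homology_torsion K n Nz ?_
  intro v hv
  have h1 : (K'.d n ((ComplexShape.down ℕ).next n)).hom (j n v) = 0 := by
    rw [← hnat, hv, map_zero]
  obtain ⟨w, hw⟩ := hex' _ h1
  obtain ⟨s, y, hs, hy⟩ := hden _ w
  refine ⟨s, hs, y, ?_⟩
  apply hinj n
  rw [hnat, ← hy, hsmul, ← hw, map_smul]

/-- the package -/
theorem t_LOCZ : U722.FF.S_LOCZ := by
  intro G U _ _ ι hL n hz
  unfold VN831.l2Betti
  apply luck_zero ι hL
  -- the projective resolution
  let P : ProjectiveResolution (V7N.trivG G) := projectiveResolution (V7N.trivG G)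
  let K : ChainComplex (ModuleCat.{0} (NG G)) ℕ :=
    ((V7N.bcF (canL : G →* NG G)).mapHomologicalComplex (ComplexShape.down ℕ)).obj P.complex
  let K' : ChainComplex (ModuleCat.{0} U) ℕ :=
    ((V7N.bcF ((ι : NG G →* U).comp canL)).mapHomologicalComplex (ComplexShape.down ℕ)).obj
      P.complex
  have e1 : VN831.homN G n ≅ K.homology n :=
    ProjectiveResolution.isoLeftDerivedObj P (V7N.bcF (canL : G →* NG G)) n
  have e2 := ProjectiveResolution.isoLeftDerivedObj P
    (V7N.bcF ((ι : NG G →* U).comp canL)) n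
  have hz2 : Limits.IsZero (K'.homology n) := hz.of_iso e2.symm
  have key : ∀ x : K.homology n, ∃ s : NG G, Nz s ∧ s • x = 0 :=
    torsion_of_exact ι K K' (fun i => jj canL ι (P.complex.X i))
      (fun i r z => jj_smul canL ι r z)
      (fun i k z => jj_nat canL ι (P.complex.d i k).hom z)
      (fun i => jj_inj canL ι hL.inj _
        ((IsProjective.iff_projective (P.complex.X i)).2 (P.projective i)))
      (fun i y => denom canL ι hL y) n hz2
  intro x
  obtain ⟨s, hs, h1⟩ := key (e1.hom.hom x)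
  refine ⟨s, hs, ?_⟩
  have h2 : e1.inv.hom (e1.hom.hom (s • x)) = s • x :=
    congrArg (fun f => f.hom (s • x)) e1.hom_inv_id
  rw [← h2, map_smul, h1, map_zero]

end Pool.Agent.U815.LBP
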